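import Pool.Agent.Q216.IR.Cnt

set_option autoImplicit false

/-!
# MP_604c02_co : rational sums of `r` distinct irrational numbers

For all integers `1 < r < n`, the largest number of `r`-element subsets with rational sum of a set
of `n` irrational numbers is `C(n - ⌊n / r⌋, r - 1) * ⌊n / r⌋`.
-/

namespace Pool.Agent.Results.MP_604c02_co.AllRanges

open Finset Pool.Agent.Q216.IR

/-- the number of `r`-element subsets `B` of `A` whose sum is rational -/
noncomputable def ratCount (A : Finset ℝ) (r : ℕ) : ℕ :=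
  Set.ncard {B : Finset ℝ | B ⊆ A ∧ B.card = r ∧ ∃ q : ℚ, ∑ b ∈ B, b = (q : ℝ)}

/-- `f(n, r) = C(n - ⌊n/r⌋, r - 1) ⌊n/r⌋` -/
def f (n r : ℕ) : ℕ := (n - n / r).choose (r - 1) * (n / r)

open scoped Classical in
theorem ratCount_eq (A : Finset ℝ) (r : ℕ) : ratCount A r =
    #((A.powersetCard r).filter (fun B => ∃ q : ℚ, ∑ b ∈ B, b = (q : ℝ))) := by
  rw [ratCount, ← Set.ncard_coe_finset]
  congr 1
  ext B
  simp only [Set.mem_ofPred_eq, coe_filter, mem_powersetCard, and_assoc]

theorem upper (A : Finset ℝ) (hA : ∀ a ∈ A, Irrational a) (r : ℕ) (hr : 1 < r) :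
    ratCount A r ≤ f A.card r := by
  classical
  -- a linear functional which vanishes exactly on the rationals among the relevant numbers
  let S : Submodule ℚ ℝ := Submodule.span ℚ {(1 : ℝ)}
  obtain ⟨φ, hφ⟩ := Module.exists_dual_forall_apply_ne_zero (K := ℚ)
    (fun a : A => S.mkQ (a : ℝ)) (by
      intro a h
      rw [Submodule.mkQ_apply, Submodule.Quotient.mk_eq_zero, Submodule.mem_span_singleton] at h
      obtain ⟨c, hc⟩ := h
      apply hA a a.2
      refine ⟨c, ?_⟩
      rw [← hc, Rat.smul_def, mul_one])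
  let w : ℝ → ℚ := fun x => φ (S.mkQ x)
  have hw : ∀ a ∈ A, w a ≠ 0 := fun a ha => hφ ⟨a, ha⟩
  have hsub : (A.powersetCard r).filter (fun B => ∃ q : ℚ, ∑ b ∈ B, b = (q : ℝ)) ⊆
      (A.powersetCard r).filter (fun B => ∑ b ∈ B, w b = 0) := by
    intro B hB
    rw [mem_filter] at hB ⊢
    refine ⟨hB.1, ?_⟩
    obtain ⟨q, hq⟩ := hB.2
    have h1 : ∑ b ∈ B, w b = φ (S.mkQ (∑ b ∈ B, b)) := by
      simp only [w, map_sum]
    rw [h1, hq]
    have h2 : S.mkQ (q : ℝ) = 0 := by
      rw [Submodule.mkQ_apply, Submodule.Quotient.mk_eq_zero, Submodule.mem_span_singleton]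
      exact ⟨q, by rw [Rat.smul_def, mul_one]⟩
    rw [h2, map_zero]
  rw [ratCount_eq]
  refine (card_le_card hsub).trans ?_
  apply main_count A w hw r (f A.card r) hr
  intro k hk1 hk2
  have h := choose_bound (#(A.filter (fun a => 0 < w a))) (#(A.filter (fun a => ¬ 0 < w a))) k
    (r - k) hk1 (by omega)
  rw [card_filter_add_card_filter_not, show k + (r - k) = r by omega] at h
  exact h

theorem lower (n r : ℕ) (hr : 1 < r) : ∃ A : Finset ℝ, A.card = n ∧
    (∀ a ∈ A, Irrational a) ∧ f n r ≤ ratCount A r := by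
  classical
  set m := n / r with hm
  have hmn : m ≤ n := Nat.div_le_self _ _
  have hr0 : ((r : ℝ)) ≠ 0 := by positivity
  have hrr : ((r - 1 : ℕ) : ℝ) = r - 1 := by rw [Nat.cast_sub hr.le]; simp
  let u : ℕ → ℝ := fun i => -((r : ℝ) - 1) * √2 + i
  let v : ℕ → ℝ := fun j => √2 + j
  have hu : Function.Injective u := by
    intro i j h
    simp only [u] at h
    have : (i : ℝ) = j := by linarith
    exact_mod_cast this
  have hv : Function.Injective v := by
    intro i j h
    simp only [v] at h
    have : (i : ℝ) = j := by linarith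
    exact_mod_cast this
  have huv : ∀ i j, u i ≠ v j := by
    intro i j h
    simp only [u, v] at h
    have h2 : (r : ℝ) * √2 = (i : ℝ) - j := by linarith
    have h3 : Irrational ((r : ℝ) * √2) := by
      have := irrational_sqrt_two.natCast_mul (show r ≠ 0 by omega)
      exact this
    apply h3
    refine ⟨(i : ℚ) - j, ?_⟩
    rw [h2]; push_cast; ring
  let U : Finset ℝ := (range m).map ⟨u, hu⟩
  let V : Finset ℝ := (range (n - m)).map ⟨v, hv⟩
  have hUV : Disjoint U V := by
    rw [disjoint_left]
    intro a h1 h2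
    simp only [U, V, mem_map, mem_range, Function.Embedding.coeFn_mk] at h1 h2
    obtain ⟨i, _, rfl⟩ := h1
    obtain ⟨j, _, h⟩ := h2
    exact huv i j h.symm
  have hU : #U = m := by simp [U]
  have hV : #V = n - m := by simp [V]
  refine ⟨U ∪ V, ?_, ?_, ?_⟩
  · rw [card_union_of_disjoint hUV, hU, hV]; omega
  · intro a ha
    rcases mem_union.1 ha with h | h
    · simp only [U, mem_map, mem_range, Function.Embedding.coeFn_mk] at h
      obtain ⟨i, _, rfl⟩ := h
      have h3 : Irrational (((r - 1 : ℕ) : ℝ) * √2) :=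
        irrational_sqrt_two.natCast_mul (show r - 1 ≠ 0 by omega)
      rw [hrr] at h3
      have h4 := (h3.neg).add_natCast i
      simp only [u]
      convert h4 using 1
      ring
    · simp only [V, mem_map, mem_range, Function.Embedding.coeFn_mk] at h
      obtain ⟨j, _, rfl⟩ := h
      exact irrational_sqrt_two.add_natCast j
  · rw [ratCount_eq]
    have hcard : f n r = #(V.powersetCard (r - 1) ×ˢ U) := by
      rw [card_product, card_powersetCard, hU, hV, f]
    rw [hcard]
    apply card_le_card_of_injOn (fun p => insert p.2 p.1)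
    · rintro ⟨L, a⟩ h
      simp only [coe_product, Set.mem_prod, mem_coe, mem_powersetCard] at h
      obtain ⟨⟨hL, hLc⟩, ha⟩ := h
      have haL : a ∉ L := fun h' => disjoint_left.1 hUV ha (hL h')
      simp only [coe_filter, mem_powersetCard, Set.mem_ofPred_eq]
      refine ⟨⟨?_, ?_⟩, ?_⟩
      · intro x hx
        rcases mem_insert.1 hx with rfl | h'
        · exact mem_union_left _ ha
        · exact mem_union_right _ (hL h')
      · rw [card_insert_of_notMem haL, hLc]; omega
      · rw [sum_insert haL]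
        simp only [U, mem_map, mem_range, Function.Embedding.coeFn_mk] at ha
        obtain ⟨i, _, rfl⟩ := ha
        have h5 : ∀ x ∈ L, ∃ j : ℕ, x = √2 + j := by
          intro x hx
          have := hL hx
          simp only [V, mem_map, mem_range, Function.Embedding.coeFn_mk] at this
          obtain ⟨j, _, h'⟩ := this
          exact ⟨j, h'.symm⟩
        choose! g hg using h5
        have h6 : ∑ x ∈ L, x = ((r : ℝ) - 1) * √2 + ((∑ x ∈ L, g x : ℕ) : ℝ) := by
          calc ∑ x ∈ L, x = ∑ x ∈ L, (√2 + (g x : ℝ)) := sum_congr rfl hg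
            _ = _ := by
              rw [sum_add_distrib, sum_const, hLc, nsmul_eq_mul, hrr]
              push_cast; rfl
        refine ⟨(i : ℚ) + (∑ x ∈ L, g x : ℕ), ?_⟩
        rw [h6]
        simp only [u]
        push_cast
        ring
    · rintro ⟨L, a⟩ h ⟨L', a'⟩ h' he
      simp only [coe_product, Set.mem_prod, mem_coe, mem_powersetCard] at h h' he
      obtain ⟨⟨hL, hLc⟩, ha⟩ := h
      obtain ⟨⟨hL', hLc'⟩, ha'⟩ := h'
      have haL : a ∉ L := fun h' => disjoint_left.1 hUV ha (hL h')
      have haL' : a' ∉ L' := fun h' => disjoint_left.1 hUV ha' (hL' h')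
      have e1 : a = a' := by
        have : a ∈ insert a' L' := by rw [← he]; exact mem_insert_self _ _
        rcases mem_insert.1 this with h2 | h2
        · exact h2
        · exact absurd (hL' h2) (disjoint_left.1 hUV ha)
      subst e1
      have e2 : L = L' := by
        rw [← erase_insert haL, he, erase_insert haL']
      rw [e2]

/-- **Theorem.** `h(n, r) = f(n, r)` for all `1 < r < n`: the maximum number of `r`-element subsets
with rational sum of a set of `n` irrational numbers is `C(n - ⌊n/r⌋, r - 1) ⌊n/r⌋`. -/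
theorem result (n r : ℕ) (hr : 1 < r) (_hn : r < n) :
    IsGreatest {c : ℕ | ∃ A : Finset ℝ, A.card = n ∧ (∀ a ∈ A, Irrational a) ∧ c = ratCount A r}
      (f n r) := by
  constructor
  · obtain ⟨A, h1, h2, h3⟩ := lower n r hr
    refine ⟨A, h1, h2, le_antisymm h3 ?_⟩
    rw [← h1]
    exact upper A h2 r hr
  · rintro c ⟨A, h1, h2, rfl⟩
    rw [← h1]
    exact upper A h2 r hr

end Pool.Agent.Results.MP_604c02_co.AllRanges
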